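import Pool.Agent.helper86.OF.SpecM

/-!
# Module of:FIN — the theorem in the form of the problem
-/

open scoped BigOperators

namespace Pool.Agent.OF

noncomputable section

open Classical

theorem FIN_dg {V : Type} [Fintype V] (G : SimpleGraph V) (inst : DecidableRel G.Adj) (v : V) :
    dg G v = G.degree v := by
  rw [← SimpleGraph.card_neighborFinset_eq_degree]
  unfold dg dgs
  refine congrArg Finset.card ?_
  ext w
  simp

theorem FIN (hFIG : FIG_stmt) (hLGC : LGC_stmt) : FIN_stmt := by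
  intro ε hε
  obtain ⟨N0, hN0⟩ := hFIG (ε / 3) (by positivity)
  refine ⟨N0 + 1, ?_⟩
  intro V _ instD G instA n r hn hr hrn hcard hcon hchr hdel hmax
  have hnr : (1 : ℝ) ≤ n := by exact_mod_cast (show 1 ≤ n by omega)
  have hr1 : r ≤ 2 * n + 1 := by
    have h1 : (r : ℝ) ≤ 2 * n + 1 := by nlinarith
    exact_mod_cast h1
  obtain ⟨D, hD⟩ : ∃ D, D = 2 * n + 1 - r := ⟨_, rfl⟩
  have hDr : (D : ℝ) = 2 * n + 1 - r := by
    rw [hD, Nat.cast_sub hr1]
    push_cast
    ring
  have hmaxD : G.maxDegree = D := hmax.trans hD.symm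
  have hcrit : Crit G D := by
    refine ⟨fun v => ?_, hcon, ?_, ?_⟩
    · rw [FIN_dg G instA v, ← hmaxD]
      exact G.degree_le_maxDegree v
    · intro h
      have h1 := ((hLGC V G D).1 h).chromaticNumber_le
      rw [hchr, hmaxD] at h1
      have h2 : D + 1 ≤ D := by exact_mod_cast h1
      omega
    · intro v w hvw
      have h1 := hdel s(v, w) hvw
      rw [hchr, hmaxD] at h1
      refine (hLGC V _ D).2 (SimpleGraph.chromaticNumber_le_iff_colorable.1 ?_)
      have h2 : ((D + 1 : ℕ) : ℕ∞) = (D : ℕ∞) + 1 := by push_cast; rfl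
      rw [h2] at h1
      exact ENat.lt_add_one_iff (ENat.natCast_ne_top D) |>.1 h1
  have hge : (1 / 2 + ε / 3) * (Fintype.card V : ℝ) ≤ D := by
    rw [hcard, hDr]
    push_cast
    nlinarith
  obtain ⟨-, hep⟩ := hN0 V G D (by omega) hge hcrit
  have hep2 : ep G Finset.univ Finset.univ = 2 * G.edgeFinset.card := by
    rw [← G.sum_degrees_eq_twice_card_edges, ep]
    exact Finset.sum_congr rfl fun v _ => FIN_dg G instA v
  rw [hep2, hcard] at hep
  have h1 : G.edgeFinset.card = D * n + 1 := by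
    have h2 : D * (2 * n + 1 - 1) = 2 * (D * n) := by
      rw [Nat.add_sub_cancel]; ring
    omega
  have h3 : (2 * n + 1).choose 2 = (2 * n + 1) * n := by
    rw [Nat.choose_two_right, Nat.add_sub_cancel,
      show (2 * n + 1) * (2 * n) = 2 * ((2 * n + 1) * n) by ring]
    exact Nat.mul_div_cancel_left _ (by norm_num)
  rw [h1, h3, hD, Nat.sub_mul]

end

end Pool.Agent.OF
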