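import Pool.Agent.helper86.OF.SpecL

/-!
# Module of:KCO — Kempe components
-/

open scoped BigOperators

namespace Pool.Agent.OF

noncomputable section

open Classical

/-- a connected graph with degrees at most `2` has `0` or `2` vertices of degree `1` -/
theorem KCO_conn {W : Type} [Fintype W] (T : SimpleGraph W) (hT : T.Connected) (d : W → ℕ)
    (hd : ∀ w, d w = (Finset.univ.filter fun u => T.Adj w u).card) (h2 : ∀ w, d w ≤ 2) :
    (Finset.univ.filter fun w => d w = 1).card = 0 ∨
      (Finset.univ.filter fun w => d w = 1).card = 2 := by
  have hdeg : ∀ w, T.degree w = d w := by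
    intro w
    rw [hd w, ← SimpleGraph.card_neighborFinset_eq_degree, SimpleGraph.neighborFinset_eq_filter]
  have h3 : Fintype.card W ≤ T.edgeFinset.card + 1 := by
    have h := hT.card_vert_le_card_edgeSet_add_one
    rwa [Nat.card_eq_fintype_card, Nat.card_eq_fintype_card, ← SimpleGraph.edgeFinset_card] at h
  have h4 := T.sum_degrees_eq_twice_card_edges
  have h5 := T.even_card_odd_degree_vertices
  have h6 : (Finset.univ.filter fun w => Odd (T.degree w)) =
      Finset.univ.filter fun w => d w = 1 := by
    ext w
    simp only [Finset.mem_filter, Finset.mem_univ, true_and]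
    rw [hdeg w]
    have := h2 w
    constructor
    · rintro ⟨k, hk⟩; omega
    · intro h; rw [h]; exact odd_one
  rw [h6] at h5
  have h7 : ∑ w, T.degree w + (Finset.univ.filter fun w => d w = 1).card ≤ 2 * Fintype.card W := by
    rw [Finset.card_filter, ← Finset.sum_add_distrib]
    calc ∑ w, (T.degree w + if d w = 1 then 1 else 0) ≤ ∑ _w : W, 2 := by
          refine Finset.sum_le_sum fun w _ => ?_
          rw [hdeg w]
          have := h2 w
          split_ifs with h <;> omega
      _ = 2 * Fintype.card W := by
          rw [Finset.sum_const, Finset.card_univ, smul_eq_mul, mul_comm]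
  obtain ⟨k, hk⟩ := h5
  omega

theorem KCO_one {V : Type} [Fintype V] {G : SimpleGraph V} {D : ℕ} {c : Sym2 V → ℕ}
    (hc : PEC G D c) (w : V) (i : ℕ) :
    (Finset.univ.filter fun u => G.Adj w u ∧ c s(w, u) = i).card = if has G c w i then 1 else 0 := by
  split_ifs with h
  · obtain ⟨u, hu, hu'⟩ := h
    rw [Finset.card_eq_one]
    refine ⟨u, ?_⟩
    ext x
    simp only [Finset.mem_filter, Finset.mem_univ, true_and, Finset.mem_singleton]
    constructor
    · rintro ⟨h1, h2⟩
      exact hc.2 w x u h1 hu (h2.trans hu'.symm)
    · rintro rfl
      exact ⟨hu, hu'⟩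
  · rw [Finset.card_eq_zero, Finset.filter_eq_empty_iff]
    intro x _ hx
    exact h ⟨x, hx⟩

theorem KCO : KCO_stmt := by
  intro V _ G D c i j hc hij
  let H : SimpleGraph V :=
    { Adj := fun v w => G.Adj v w ∧ (c s(v, w) = i ∨ c s(v, w) = j)
      symm := ⟨fun v w h => ⟨h.1.symm, by rw [Sym2.eq_swap]; exact h.2⟩⟩
      loopless := ⟨fun v h => G.loopless.irrefl v h.1⟩ }
  have hdH : ∀ w, (Finset.univ.filter fun u => H.Adj w u).card =
      (if has G c w i then 1 else 0) + (if has G c w j then 1 else 0) := by
    intro w
    rw [← KCO_one hc w i, ← KCO_one hc w j, ← Finset.card_union_of_disjoint]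
    · congr 1
      ext u
      simp only [Finset.mem_filter, Finset.mem_univ, true_and, Finset.mem_union, H]
      tauto
    · rw [Finset.disjoint_left]
      intro u h1 h2
      simp only [Finset.mem_filter, Finset.mem_univ, true_and] at h1 h2
      exact hij (h1.2.symm.trans h2.2)
  refine ⟨fun v => Finset.univ.filter fun w => H.Reachable v w, ?_, ?_, ?_, ?_⟩
  · intro v
    simp
  · intro v w hw
    simp only [Finset.mem_filter, Finset.mem_univ, true_and] at hw
    ext u
    simp only [Finset.mem_filter, Finset.mem_univ, true_and]
    exact ⟨fun h => hw.trans h, fun h => hw.symm.trans h⟩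
  · intro v x y hxy hcol
    simp only [Finset.mem_filter, Finset.mem_univ, true_and]
    have hadj : H.Adj x y := ⟨hxy, hcol⟩
    exact ⟨fun h => h.trans hadj.reachable, fun h => h.trans hadj.symm.reachable⟩
  · intro v
    let C := H.connectedComponentMk v
    have hmem : ∀ w, w ∈ C ↔ H.Reachable v w := by
      intro w
      have h1 : w ∈ C ↔ H.connectedComponentMk w = H.connectedComponentMk v :=
        SimpleGraph.ConnectedComponent.mem_supp_iff _ _
      rw [h1, SimpleGraph.ConnectedComponent.eq]
      exact ⟨fun h => h.symm, fun h => h.symm⟩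
    have hcon := C.connected_toSimpleGraph
    have key := KCO_conn C.toSimpleGraph hcon
      (fun w => (if has G c w.1 i then 1 else 0) + (if has G c w.1 j then 1 else 0))
      (by
        intro w
        rw [← hdH w.1]
        symm
        apply Finset.card_bij (fun u _ => u.1)
        · intro u hu
          simp only [Finset.mem_filter, Finset.mem_univ, true_and] at hu ⊢
          exact hu
        · intro u _ u' _ h
          exact Subtype.ext h
        · intro u hu
          simp only [Finset.mem_filter, Finset.mem_univ, true_and] at hu
          have hu' : u ∈ C := (hmem u).2 (((hmem w.1).1 w.2).trans hu.reachable)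
          refine ⟨⟨u, hu'⟩, ?_, rfl⟩
          simp only [Finset.mem_filter, Finset.mem_univ, true_and]
          exact hu)
      (by intro w; split_ifs <;> omega)
    have hcard : ((Finset.univ.filter fun w => H.Reachable v w).filter
        fun w => ¬ (has G c w i ↔ has G c w j)).card =
        (Finset.univ.filter fun w : C => (if has G c w.1 i then 1 else 0) +
          (if has G c w.1 j then 1 else 0) = 1).card := by
      symm
      apply Finset.card_bij (fun u _ => u.1)
      · intro u hu
        simp only [Finset.mem_filter, Finset.mem_univ, true_and] at hu ⊢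
        refine ⟨(hmem u.1).1 u.2, ?_⟩
        by_cases h1 : has G c u.1 i <;> by_cases h2 : has G c u.1 j <;> simp [h1, h2] at hu ⊢
      · intro u _ u' _ h
        exact Subtype.ext h
      · intro u hu
        simp only [Finset.mem_filter, Finset.mem_univ, true_and] at hu
        refine ⟨⟨u, (hmem u).2 hu.1⟩, ?_, rfl⟩
        simp only [Finset.mem_filter, Finset.mem_univ, true_and]
        have h3 := hu.2
        by_cases h1 : has G c u i <;> by_cases h2 : has G c u j <;> simp [h1, h2] at h3 ⊢
    simp only
    rw [hcard]
    exact key

end

end Pool.Agent.OF
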